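import Pool.Agent.Helper15.T6.Stmts

set_option autoImplicit false

open Finset

namespace Pool.Agent.Helper5.T6

open Pool.Agent.Helper15.T6

theorem st_CNE : ST_CNE := by
  classical
  intro d k v u
  refine ⟨2 ^ (k + 1) * (d * d * (u + 1)) ^ (k + 1), fun n U hU => ?_⟩
  set F : Finset (Fin (k + 1)) → Finset (CycD n d k) := fun J =>
    Fintype.piFinset (fun i => (if i ∈ J then (univ : Finset (Fin n)) else U) ×ˢ
      (univ : Finset (Fin d × Fin d))) with hF
  set A : Finset (Finset (Fin (k + 1))) := (univ : Finset (Finset (Fin (k + 1)))).filter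
    (fun J => J.card = v) with hA
  have hsub : {c : CycD n d k | Valid c ∧ (U ∪ vs c).card = U.card + v} ⊆
      ((A.biUnion F : Finset (CycD n d k)) : Set (CycD n d k)) := by
    intro c hc
    obtain ⟨hv, hcard⟩ := hc
    rw [Finset.mem_coe, Finset.mem_biUnion]
    refine ⟨univ.filter (fun i => (c i).1 ∉ U), ?_, ?_⟩
    · rw [hA, Finset.mem_filter]
      refine ⟨Finset.mem_univ _, ?_⟩
      have h1 : (univ.filter (fun i => (c i).1 ∉ U)).card = (vs c \ U).card := by
        rw [← Finset.card_image_of_injective (univ.filter (fun i => (c i).1 ∉ U)) hv.1]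
        congr 1
        ext x
        simp only [vs, Finset.mem_image, Finset.mem_filter, Finset.mem_univ, true_and,
          Finset.mem_sdiff]
        constructor
        · rintro ⟨i, hi, rfl⟩
          exact ⟨⟨i, rfl⟩, hi⟩
        · rintro ⟨⟨i, rfl⟩, hi⟩
          exact ⟨i, hi, rfl⟩
      have h2 : (U ∪ vs c).card = U.card + (vs c \ U).card := by
        rw [← Finset.union_sdiff_self_eq_union, Finset.card_union_of_disjoint]
        exact Finset.disjoint_sdiff
      rw [h1]
      omega
    · rw [hF, Fintype.mem_piFinset]
      intro i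
      rw [Finset.mem_product]
      refine ⟨?_, Finset.mem_univ _⟩
      by_cases h : (c i).1 ∈ U
      · rw [if_neg (by simp [h])]
        exact h
      · rw [if_pos (by simp [h])]
        exact Finset.mem_univ _
  have hcardF : ∀ J ∈ A, (F J).card ≤ (d * d * (u + 1)) ^ (k + 1) * n ^ v := by
    intro J hJ
    rw [hA, Finset.mem_filter] at hJ
    rw [hF, Fintype.card_piFinset]
    calc ∏ i : Fin (k + 1), ((if i ∈ J then (univ : Finset (Fin n)) else U) ×ˢ
          (univ : Finset (Fin d × Fin d))).card
        ≤ ∏ i : Fin (k + 1), ((d * d * (u + 1)) * (if i ∈ J then n else 1)) := by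
          apply Finset.prod_le_prod'
          intro i _
          rw [Finset.card_product]
          have h9 : (univ : Finset (Fin d × Fin d)).card = d * d := by simp
          rw [h9]
          by_cases h : i ∈ J
          · rw [if_pos h, if_pos h, Finset.card_univ, Fintype.card_fin]
            nlinarith [Nat.zero_le (d * d * (n * u))]
          · rw [if_neg h, if_neg h]
            nlinarith [Nat.mul_le_mul_left (d * d) hU]
      _ = (d * d * (u + 1)) ^ (k + 1) * n ^ v := by
          rw [Finset.prod_mul_distrib, Finset.prod_const, Finset.card_univ, Fintype.card_fin,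
            Finset.prod_ite_mem, Finset.univ_inter, Finset.prod_const, hJ.2]
  calc {c : CycD n d k | Valid c ∧ (U ∪ vs c).card = U.card + v}.ncard
      ≤ ((A.biUnion F : Finset (CycD n d k)) : Set (CycD n d k)).ncard :=
        Set.ncard_le_ncard hsub (Finset.finite_toSet _)
    _ = (A.biUnion F).card := Set.ncard_coe_finset _
    _ ≤ A.card * ((d * d * (u + 1)) ^ (k + 1) * n ^ v) := Finset.card_biUnion_le_card_mul _ _ _ hcardF
    _ ≤ 2 ^ (k + 1) * ((d * d * (u + 1)) ^ (k + 1) * n ^ v) := by
        apply Nat.mul_le_mul_right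
        calc A.card ≤ (univ : Finset (Finset (Fin (k + 1)))).card := Finset.card_filter_le _ _
          _ = 2 ^ (k + 1) := by rw [Finset.card_univ, Fintype.card_finset, Fintype.card_fin]
    _ = 2 ^ (k + 1) * (d * d * (u + 1)) ^ (k + 1) * n ^ v := by ring

end Pool.Agent.Helper5.T6
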