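import Pool.Agent.Helper15.T6.Stmts
import Pool.Agent.Helper42.T4.SUMX

/-! Module SUMX of t6_mods: the weighted sum over the pairings is a Gaussian integral. -/

set_option autoImplicit false

namespace Pool.Agent.Helper5.T6

open Finset MeasureTheory Filter Topology Pool.Agent.Helper15.T6
open Pool.Agent.Helper15.T4 (IsPM PM cov IsMat nsq po)

/-- products of coordinates are integrable against the Gaussian -/
theorem int_prodR {H ι : Type} [Fintype ι] (s : Finset H) (σ : H → ι) :
    Integrable (fun x : ι → ℝ => (∏ h ∈ s, x (σ h)) * Real.exp (-(nsq x) / 2)) := by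
  classical
  have hdom : Integrable (fun x : ι → ℝ => ∏ i, ((1 + |x i|) ^ s.card *
      Real.exp (-(x i ^ 2) / 2))) :=
    (Integrable.fintype_prod (f := fun _ : ι => fun y : ℝ => (1 + |y|) ^ s.card *
      Real.exp (-(y ^ 2) / 2)) (fun _ => Pool.Agent.Helper42.T4.int_one _))
  refine hdom.mono' ?_ ?_
  · refine Continuous.aestronglyMeasurable ?_
    unfold nsq
    fun_prop
  · refine Filter.Eventually.of_forall fun x => ?_
    rw [norm_mul, norm_prod]
    have h1 : ∀ h ∈ s, ‖x (σ h)‖ ≤ ∏ i, (1 + |x i|) := by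
      intro h _
      rw [Real.norm_eq_abs]
      exact Pool.Agent.Helper42.T4.abs_le_prod x (σ h)
    have h2 : ∏ h ∈ s, ‖x (σ h)‖ ≤ (∏ i, (1 + |x i|)) ^ s.card := by
      refine le_trans (Finset.prod_le_prod (fun _ _ => norm_nonneg _) h1) ?_
      rw [Finset.prod_const]
    have h3 : ‖Real.exp (-(nsq x) / 2)‖ = ∏ i, Real.exp (-(x i ^ 2) / 2) := by
      rw [Real.norm_eq_abs, Real.abs_exp, ← Real.exp_sum]
      congr 1
      unfold nsq
      rw [← Finset.sum_neg_distrib, Finset.sum_div]
    rw [h3, Finset.prod_mul_distrib, Finset.prod_pow]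
    exact mul_le_mul_of_nonneg_right h2 (Finset.prod_nonneg fun _ _ => (Real.exp_pos _).le)

open Classical in
theorem prod_eqn {H L : Type} (M : Finset (Sym2 H)) (σ : H → L) :
    ∏ e ∈ M, (if (e.map σ).IsDiag then (1 : ℂ) else 0) = if Eqn M σ then 1 else 0 := by
  by_cases h : Eqn M σ
  · rw [if_pos h]
    refine Finset.prod_eq_one fun e he => ?_
    rw [if_pos]
    induction e using Sym2.ind with
    | _ a b =>
      rw [Sym2.map_mk, Sym2.mk_isDiag_iff]
      exact h a b he
  · rw [if_neg h]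
    unfold Eqn at h
    push Not at h
    obtain ⟨a, b, hab, hne⟩ := h
    refine Finset.prod_eq_zero hab ?_
    rw [if_neg]
    rw [Sym2.map_mk, Sym2.mk_isDiag_iff]
    exact hne

open Classical in
theorem st_SUMX (h1 : ST_WICKR) (h2 : Pool.Agent.Helper15.T4.ST_EXTM) : ST_SUMX := by
  intro d L _ w n F hF
  have key : ∀ σ : HE n d → L,
      ((((PM (univ : Finset (HE n d))).filter (fun M => F ⊆ M)).filter (fun M => Eqn M σ)).card : ℝ) =
      (if Eqn F σ then 1 else 0) * GR (fun x : L → ℝ => ∏ h ∈ (cov F)ᶜ, x (σ h)) := by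
    intro σ
    rw [← h1 (HE n d) L (cov F)ᶜ σ]
    have ha := h2 (HE n d) F (fun e => if (e.map σ).IsDiag then (1 : ℂ) else 0) hF
    simp only [prod_eqn] at ha
    rw [Finset.sum_boole, Finset.sum_boole] at ha
    have hb : (((((PM (univ : Finset (HE n d))).filter (fun M => F ⊆ M)).filter
        (fun M => Eqn M σ)).card : ℝ) : ℂ) =
      (((if Eqn F σ then (1:ℝ) else 0) * (((PM (cov F)ᶜ).filter (fun M => Eqn M σ)).card : ℝ) : ℝ) : ℂ) := by
      push_cast
      convert ha using 2
      split_ifs <;> simp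
    exact_mod_cast hb
  have hL : ∑ M ∈ (PM (univ : Finset (HE n d))).filter (fun M => F ⊆ M), XW w M =
      ∑ σ ∈ univ.filter (fun σ : HE n d → L => Eqn F σ), (∏ v, w (fun i => σ (v, i))) *
        GR (fun x : L → ℝ => ∏ h ∈ (cov F)ᶜ, x (σ h)) := by
    unfold XW
    simp only [Finset.sum_filter (fun σ : HE n d → L => Eqn _ σ)]
    rw [Finset.sum_comm]
    refine Finset.sum_congr rfl fun σ _ => ?_
    have e1 : ∑ M ∈ (PM (univ : Finset (HE n d))).filter (fun M => F ⊆ M),
        (if Eqn M σ then ∏ v, w (fun i => σ (v, i)) else 0) =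
        (∏ v, w (fun i => σ (v, i))) * ((((PM (univ : Finset (HE n d))).filter
          (fun M => F ⊆ M)).filter (fun M => Eqn M σ)).card : ℝ) := by
      rw [← Finset.sum_filter, Finset.sum_const, nsmul_eq_mul, mul_comm]
    rw [e1, key σ]
    split_ifs with h
    · rw [one_mul]
    · rw [zero_mul, mul_zero]
  rw [hL]
  unfold GR
  have hR : (fun x : L → ℝ => Psi w F x * Real.exp (-(nsq x) / 2)) =
      fun x => ∑ σ ∈ univ.filter (fun σ : HE n d → L => Eqn F σ), (∏ v, w (fun i => σ (v, i))) *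
        ((∏ h ∈ (cov F)ᶜ, x (σ h)) * Real.exp (-(nsq x) / 2)) := by
    funext x
    unfold Psi
    rw [Finset.sum_mul]
    refine Finset.sum_congr rfl fun σ _ => ?_
    rw [mul_assoc]
  rw [hR, integral_finsetSum]
  · rw [Finset.mul_sum]
    refine Finset.sum_congr rfl fun σ _ => ?_
    rw [integral_const_mul]
    ring
  · intro σ _
    exact (int_prodR (cov F)ᶜ σ).const_mul _

end Pool.Agent.Helper5.T6
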